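import Mathlib

/-!
Symmetric orthogonality relations on abelian groups without large crossing patterns.
-/

set_option autoImplicit false

namespace Pool.Agent.Q6.Nip

theorem index_ne_zero_of_le {G : Type*} [Group G] {H K : Subgroup G} (h : H ≤ K)
    (hH : H.index ≠ 0) : K.index ≠ 0 := fun h0 => hH (by
  have := Subgroup.index_dvd_of_le h
  rw [h0] at this
  exact Nat.eq_zero_of_zero_dvd this)

/-- a symmetric orthogonality relation: `perp a` is the subgroup of the elements orthogonal to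
`a` -/
structure Orth (G : Type*) [CommGroup G] where
  perp : G → Subgroup G
  symm : ∀ a b, b ∈ perp a → a ∈ perp b

namespace Orth

variable {G : Type*} [CommGroup G] (R : Orth G)

/-- pattern of size `m`: `a i ⊥ b j` if and only if `i ≠ j` -/
def Pat (m : ℕ) : Prop := ∃ a b : Fin m → G, ∀ i j, b j ∈ R.perp (a i) ↔ i ≠ j

/-- elements orthogonal to all of `G` -/
def rad : Subgroup G where
  carrier := {a | ∀ b, b ∈ R.perp a}
  one_mem' := fun b => R.symm _ _ (R.perp b).one_mem
  mul_mem' := fun ha ha' b =>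
    R.symm _ _ ((R.perp b).mul_mem (R.symm _ _ (ha b)) (R.symm _ _ (ha' b)))
  inv_mem' := fun ha b => R.symm _ _ ((R.perp b).inv_mem (R.symm _ _ (ha b)))

theorem mem_rad {a : G} : a ∈ R.rad ↔ ∀ b, b ∈ R.perp a := Iff.rfl

/-- If `U` and `V` are orthogonal subgroups of finite index then the radical has finite index. -/
theorem rad_index_of_orth (hfin : ∀ a, (R.perp a).index ≠ 0) (U V : Subgroup G)
    (hU : U.index ≠ 0) (hV : V.index ≠ 0) (hUV : ∀ x ∈ U, ∀ y ∈ V, y ∈ R.perp x) :
    R.rad.index ≠ 0 := by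
  classical
  have : V.FiniteIndex := ⟨hV⟩
  have hfinq : Finite (G ⧸ V) := inferInstance
  let rep : G ⧸ V → G := Quotient.out
  have h1 : (⨅ q : G ⧸ V, R.perp (rep q)).index ≠ 0 := Subgroup.index_iInf_ne_zero (fun q => hfin _)
  have h2 : (U ⊓ ⨅ q : G ⧸ V, R.perp (rep q)).index ≠ 0 := Subgroup.index_inf_ne_zero hU h1
  refine index_ne_zero_of_le ?_ h2
  intro x hx y
  rw [Subgroup.mem_inf, Subgroup.mem_iInf] at hx
  have h3 : (rep (y : G ⧸ V))⁻¹ * y ∈ V := by
    rw [← QuotientGroup.eq]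
    exact Quotient.out_eq _
  have h4 : (rep (y : G ⧸ V))⁻¹ * y ∈ R.perp x := hUV x hx.1 _ h3
  have h5 : rep (y : G ⧸ V) ∈ R.perp x := R.symm _ _ (hx.2 _)
  have h6 := (R.perp x).mul_mem h5 h4
  rwa [mul_inv_cancel_left] at h6

/-- the greedy argument -/
theorem exists_pat (hfin : ∀ a, (R.perp a).index ≠ 0) (hrad : R.rad.index = 0) (m : ℕ) :
    R.Pat m := by
  classical
  induction m with
  | zero => exact ⟨Fin.elim0, Fin.elim0, fun i => i.elim0⟩
  | succ m ih =>
    obtain ⟨a, b, h⟩ := ih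
    have hU : (⨅ i, R.perp (b i)).index ≠ 0 := Subgroup.index_iInf_ne_zero (fun i => hfin _)
    have hV : (⨅ i, R.perp (a i)).index ≠ 0 := Subgroup.index_iInf_ne_zero (fun i => hfin _)
    have hex : ∃ x ∈ (⨅ i, R.perp (b i)), ∃ y ∈ (⨅ i, R.perp (a i)), y ∉ R.perp x := by
      by_contra hcon
      push Not at hcon
      exact R.rad_index_of_orth hfin _ _ hU hV hcon hrad
    obtain ⟨x, hx, y, hy, hxy⟩ := hex
    rw [Subgroup.mem_iInf] at hx hy
    refine ⟨Fin.snoc a x, Fin.snoc b y, fun i j => ?_⟩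
    induction i using Fin.lastCases with
    | last =>
      induction j using Fin.lastCases with
      | last =>
        rw [Fin.snoc_last, Fin.snoc_last]
        exact ⟨fun h => absurd h hxy, fun h => absurd rfl h⟩
      | cast j =>
        rw [Fin.snoc_last, Fin.snoc_castSucc]
        exact ⟨fun _ => (Fin.castSucc_lt_last j).ne', fun _ => R.symm _ _ (hx j)⟩
    | cast i =>
      induction j using Fin.lastCases with
      | last =>
        rw [Fin.snoc_last, Fin.snoc_castSucc]
        exact ⟨fun _ => (Fin.castSucc_lt_last i).ne, fun _ => hy i⟩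
      | cast j =>
        rw [Fin.snoc_castSucc, Fin.snoc_castSucc, h i j]
        exact not_congr (Fin.castSucc_injective _).eq_iff.symm

/-- **Main lemma.** -/
theorem rad_index (hfin : ∀ a, (R.perp a).index ≠ 0) (m : ℕ) (hm : ¬ R.Pat m) :
    R.rad.index ≠ 0 := fun h => hm (R.exists_pat hfin h m)

/-- smaller patterns -/
theorem Pat.mono {R : Orth G} {m n : ℕ} (hmn : m ≤ n) (h : R.Pat n) : R.Pat m := by
  obtain ⟨a, b, h⟩ := h
  refine ⟨a ∘ Fin.castLE hmn, b ∘ Fin.castLE hmn, fun i j => ?_⟩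
  rw [Function.comp_apply, Function.comp_apply, h]
  exact not_congr (Fin.castLE_injective hmn).eq_iff

/-- finite intersections are intersections of few (Baldwin and Saxl) -/
theorem exists_subset [DecidableEq G] (m : ℕ) (hm : ¬ R.Pat (m + 1)) (S : Finset G) :
    ∃ T ⊆ S, T.card ≤ m ∧ ∀ x, (∀ a ∈ T, x ∈ R.perp a) → ∀ a ∈ S, x ∈ R.perp a := by
  classical
  -- a minimal subset with the same intersection
  let P : Finset G → Prop := fun T => T ⊆ S ∧ ∀ x, (∀ a ∈ T, x ∈ R.perp a) → ∀ a ∈ S, x ∈ R.perp a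
  have hex : ∃ n, ∃ T, P T ∧ T.card = n := ⟨S.card, S, ⟨subset_rfl, fun _ h => h⟩, rfl⟩
  obtain ⟨T, ⟨hTS, hT⟩, hcard⟩ := Nat.find_spec hex
  have hmin : ∀ T', P T' → T.card ≤ T'.card := fun T' h' => by
    rw [hcard]; exact Nat.find_min' hex ⟨T', h', rfl⟩
  refine ⟨T, hTS, ?_, hT⟩
  by_contra hcon
  push Not at hcon
  apply hm
  refine Pat.mono (Nat.succ_le_of_lt hcon) ?_
  -- witnesses
  have hw : ∀ a ∈ T, ∃ x, (∀ a' ∈ T, a' ≠ a → x ∈ R.perp a') ∧ x ∉ R.perp a := by
    intro a ha
    by_contra hc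
    push Not at hc
    have h1 : P (T.erase a) := by
      refine ⟨(Finset.erase_subset _ _).trans hTS, fun x hx => hT x (fun a' ha' => ?_)⟩
      have h2 : ∀ a' ∈ T, a' ≠ a → x ∈ R.perp a' := fun a' ha' hne =>
        hx a' (Finset.mem_erase.mpr ⟨hne, ha'⟩)
      by_cases h3 : a' = a
      · rw [h3]; exact hc x h2
      · exact h2 a' ha' h3
    have h2 := hmin _ h1
    rw [Finset.card_erase_of_mem ha] at h2
    have := Finset.card_pos.mpr ⟨a, ha⟩
    omega
  choose! w hw1 hw2 using hw
  let e := T.equivFin.symm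
  refine ⟨fun i => (e i : G), fun i => w (e i), fun i j => ?_⟩
  by_cases hij : i = j
  · subst hij
    exact ⟨fun h => absurd h (hw2 _ (e i).2), fun h => absurd rfl h⟩
  · refine ⟨fun _ => hij, fun _ => hw1 _ (e j).2 _ (e i).2 ?_⟩
    intro h
    exact hij (e.injective (Subtype.ext h))

/-- uniform bound for the index of the radical -/
theorem rad_index_le (m B : ℕ) (hm : ¬ R.Pat (m + 1))
    (hB : ∀ a, (R.perp a).index ≠ 0 ∧ (R.perp a).index ≤ B) :
    R.rad.index ≠ 0 ∧ R.rad.index ≤ B ^ m := by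
  classical
  have hB1 : 1 ≤ B := by
    have := hB 1
    omega
  have h0 : R.rad.index ≠ 0 := R.rad_index (fun a => (hB a).1) _ hm
  refine ⟨h0, ?_⟩
  -- the radical is a finite intersection
  have hfi : R.rad.FiniteIndex := ⟨h0⟩
  -- choose a finite set with minimal intersection
  have hint : ∀ S : Finset G, (⨅ a : S, R.perp (a : G)).index ≠ 0 ∧
      (⨅ a : S, R.perp (a : G)).index ≤ B ^ m := by
    intro S
    obtain ⟨T, hTS, hTc, hT⟩ := R.exists_subset m hm S
    have hle : (⨅ a : T, R.perp (a : G)) ≤ ⨅ a : S, R.perp (a : G) := by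
      intro x hx
      rw [Subgroup.mem_iInf] at hx ⊢
      exact fun a => hT x (fun a' ha' => hx ⟨a', ha'⟩) a a.2
    have h1 : (⨅ a : T, R.perp (a : G)).index ≠ 0 := Subgroup.index_iInf_ne_zero
      (fun a => (hB a).1)
    have h2 : (⨅ a : T, R.perp (a : G)).index ≤ B ^ m := by
      refine (Subgroup.index_iInf_le _).trans ?_
      calc ∏ a : T, (R.perp (a : G)).index ≤ ∏ _a : T, B :=
            Finset.prod_le_prod' fun a _ => (hB a).2
        _ = B ^ T.card := by simp
        _ ≤ B ^ m := Nat.pow_le_pow_right hB1 hTc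
    refine ⟨index_ne_zero_of_le hle h1, ?_⟩
    exact (Nat.le_of_dvd (Nat.pos_of_ne_zero h1) (Subgroup.index_dvd_of_le hle)).trans h2
  have hbdd : ∃ n, ∃ S : Finset G, (⨅ a : S, R.perp (a : G)).index = n ∧
      ∀ S' : Finset G, (⨅ a : S', R.perp (a : G)).index ≤ n := by
    have hne : (Set.range fun S : Finset G => (⨅ a : S, R.perp (a : G)).index).Nonempty :=
      ⟨_, ∅, rfl⟩
    have hbd : BddAbove (Set.range fun S : Finset G => (⨅ a : S, R.perp (a : G)).index) :=
      ⟨B ^ m, by rintro _ ⟨S, rfl⟩; exact (hint S).2⟩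
    obtain ⟨S, hS⟩ := Nat.sSup_mem hne hbd
    exact ⟨_, S, hS, fun S' => le_csSup hbd ⟨S', rfl⟩⟩
  obtain ⟨n, S, hS, hmax⟩ := hbdd
  have hrad : (⨅ a : S, R.perp (a : G)) ≤ R.rad := by
    intro x hx a
    apply R.symm
    -- adding `a` does not change the intersection
    have hle : (⨅ b : (insert a S : Finset G), R.perp (b : G)) ≤ ⨅ b : S, R.perp (b : G) := by
      intro y hy
      rw [Subgroup.mem_iInf] at hy ⊢
      exact fun b => hy ⟨b, Finset.mem_insert_of_mem b.2⟩
    have h1 := hmax (insert a S)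
    rw [← hS] at h1
    have h2 : (⨅ b : (insert a S : Finset G), R.perp (b : G)) = ⨅ b : S, R.perp (b : G) := by
      refine le_antisymm hle ?_
      have h3 := Subgroup.relIndex_mul_index hle
      have h4 := (hint (insert a S)).1
      have h5 := (hint S).1
      have h6 : (⨅ b : (insert a S : Finset G), R.perp (b : G)).relIndex
          (⨅ b : S, R.perp (b : G)) = 1 := by
        have h7 : (⨅ b : (insert a S : Finset G), R.perp (b : G)).relIndex
          (⨅ b : S, R.perp (b : G)) ≠ 0 := by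
          intro h8
          rw [h8, zero_mul] at h3
          exact h4 h3.symm
        by_contra h8
        have h9 : 2 ≤ (⨅ b : (insert a S : Finset G), R.perp (b : G)).relIndex
          (⨅ b : S, R.perp (b : G)) := by omega
        nlinarith [Nat.pos_of_ne_zero h5]
      exact Subgroup.relIndex_eq_one.mp h6
    rw [← h2] at hx
    rw [Subgroup.mem_iInf] at hx
    exact hx ⟨a, Finset.mem_insert_self _ _⟩
  exact (Nat.le_of_dvd (Nat.pos_of_ne_zero (hint S).1)
    (Subgroup.index_dvd_of_le hrad)).trans (hint S).2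

end Orth

end Pool.Agent.Q6.Nip
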