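import Mathlib

/-!
Norms from Kummer extensions of prime degree and split symbol algebras.
-/

set_option autoImplicit false
set_option maxHeartbeats 400000

namespace Pool.Agent.Q6.Nip

open Polynomial Module

section Split

variable {K : Type} [Field K]

/-- the symbol algebra of `a` and `b` has a representation of dimension `n` -/
def Split (n : ℕ) (ω a b : K) : Prop := ∃ X Y : Matrix (Fin n) (Fin n) K,
  X ^ n = a • (1 : Matrix (Fin n) (Fin n) K) ∧ Y ^ n = b • (1 : Matrix (Fin n) (Fin n) K) ∧
    Y * X = ω • (X * Y)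

theorem Split.swap {n : ℕ} {ω a b : K} (hω : ω ≠ 0) (h : Split n ω a b) : Split n ω⁻¹ b a := by
  obtain ⟨X, Y, h1, h2, h3⟩ := h
  exact ⟨Y, X, h2, h1, by rw [h3, smul_smul, inv_mul_cancel₀ hω, one_smul]⟩

theorem split_of_end {n : ℕ} {ω a b : K} {V : Type} [AddCommGroup V] [Module K V]
    [FiniteDimensional K V] (hV : finrank K V = n) (X Y : Module.End K V)
    (hX : X ^ n = a • (1 : Module.End K V)) (hY : Y ^ n = b • (1 : Module.End K V))
    (h : Y * X = ω • (X * Y)) : Split n ω a b := by
  let e := LinearMap.toMatrixAlgEquiv (Module.finBasisOfFinrankEq K V hV)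
  refine ⟨e X, e Y, ?_, ?_, ?_⟩
  · rw [← map_pow, hX, map_smul, map_one]
  · rw [← map_pow, hY, map_smul, map_one]
  · rw [← map_mul, h, map_smul, map_mul]

/-- powers are orthogonal to everything -/
theorem split_pow {n : ℕ} (hn : 0 < n) {ω : K} (hω : ω ^ n = 1) (c b : K) :
    Split n ω (c ^ n) b := by
  have hω0 : ω ≠ 0 := by
    rintro rfl
    rw [zero_pow hn.ne'] at hω
    exact zero_ne_one hω
  have hmon : (X ^ n - C b : K[X]).Monic := monic_X_pow_sub_C b hn.ne'
  let R := AdjoinRoot (X ^ n - C b)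
  let pb := AdjoinRoot.powerBasis' hmon
  have hfin : FiniteDimensional K R := pb.finite
  have hrank : finrank K R = n := by
    rw [pb.finrank, AdjoinRoot.powerBasis'_dim, natDegree_X_pow_sub_C]
  let y : R := AdjoinRoot.root _
  have hy : y ^ n = algebraMap K R b := by
    have h1 := AdjoinRoot.eval₂_root (X ^ n - C b)
    rw [eval₂_sub, eval₂_X_pow, eval₂_C, sub_eq_zero] at h1
    exact h1
  let τ : R →ₐ[K] R := AdjoinRoot.liftAlgHom (X ^ n - C b) (Algebra.ofId K R) (ω⁻¹ • y) (by
    rw [eval₂_sub, eval₂_X_pow, eval₂_C, sub_eq_zero, _root_.smul_pow, hy, inv_pow, hω, inv_one,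
      one_smul]
    rfl)
  have hτy : τ y = ω⁻¹ • y := AdjoinRoot.liftAlgHom_root _ _ _ _
  have hτn : ∀ k : ℕ, (τ ^ k) y = (ω⁻¹) ^ k • y := by
    intro k
    induction k with
    | zero => simp
    | succ k ih =>
      rw [pow_succ', AlgHom.mul_apply, ih, map_smul, hτy, smul_smul, ← pow_succ]
  have hτ1 : τ ^ n = 1 := by
    apply AdjoinRoot.algHom_ext
    rw [hτn n, inv_pow, hω, inv_one, one_smul]
    rfl
  refine split_of_end hrank (c • τ.toLinearMap) (LinearMap.mulLeft K y) ?_ ?_ ?_
  · rw [_root_.smul_pow]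
    congr 1
    have h1 : ∀ k : ℕ, τ.toLinearMap ^ k = (τ ^ k).toLinearMap := by
      intro k
      induction k with
      | zero => rfl
      | succ k ih => rw [pow_succ, ih, pow_succ]; rfl
    rw [h1, hτ1]
    rfl
  · rw [LinearMap.pow_mulLeft, hy]
    ext v
    simp [Algebra.smul_def]
  · ext v
    simp only [Module.End.mul_apply, LinearMap.smul_apply, LinearMap.mulLeft_apply,
      AlgHom.toLinearMap_apply, map_mul, hτy]
    rw [smul_mul_assoc, smul_comm ω, smul_smul ω, mul_inv_cancel₀ hω0, one_smul, mul_smul_comm]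

end Split

section Kummer

variable {K : Type} [Field K] {n : ℕ} [NeZero n] {ω : K} (hω : IsPrimitiveRoot ω n)
  {a : K} (H : Irreducible (X ^ n - C a)) (L : Type) [Field L] [Algebra K L]
  [IsSplittingField K L (X ^ n - C a)]

include hω H

theorem kum_galois : IsGalois K L :=
  isGalois_of_isSplittingField_X_pow_sub_C ⟨ω, (mem_primitiveRoots (NeZero.pos n)).mpr hω⟩ H L

theorem kum_finrank : finrank K L = n :=
  finrank_of_isSplittingField_X_pow_sub_C ⟨ω, (mem_primitiveRoots (NeZero.pos n)).mpr hω⟩ H L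

/-- the generator of the Galois group, and the norm -/
theorem exists_gen : ∃ (α : L) (σ : L ≃ₐ[K] L), α ^ n = algebraMap K L a ∧ σ α = ω • α ∧
    ∀ z : L, algebraMap K L (Algebra.norm K z) = ∏ i ∈ Finset.range n, (σ ^ i) z := by
  have hfin : FiniteDimensional K L := IsSplittingField.finiteDimensional L (X ^ n - C a)
  have hgal : IsGalois K L := kum_galois hω H L
  let α : L := rootOfSplitsXPowSubC (NeZero.pos n) a L
  have hα : α ^ n = algebraMap K L a := rootOfSplitsXPowSubC_pow a L
  let e := autEquivZmod H L hω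
  let σ : L ≃ₐ[K] L := e.symm (Multiplicative.ofAdd 1)
  have hσ : σ α = ω • α := by
    have h1 := autEquivZmod_symm_apply_natCast H L hα hω 1
    rw [Nat.cast_one, pow_one] at h1
    exact h1
  refine ⟨α, σ, hα, hσ, fun z => ?_⟩
  rw [Algebra.norm_eq_prod_automorphisms]
  have h2 : ∀ i : ℕ, σ ^ i = e.symm (Multiplicative.ofAdd (i : ZMod n)) := by
    intro i
    rw [← map_pow, ← ofAdd_nsmul, nsmul_one]
  have h3 : ∏ g : (L ≃ₐ[K] L), g z = ∏ i : ZMod n, (e.symm (Multiplicative.ofAdd i)) z := by
    refine (Fintype.prod_equiv (Multiplicative.ofAdd.trans e.symm.toEquiv) _ _ (fun i => rfl)).symm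
  rw [h3]
  symm
  refine Finset.prod_bij (fun i _ => (i : ZMod n)) (fun _ _ => Finset.mem_univ _) ?_ ?_ ?_
  · intro i hi j hj hij
    rw [Finset.mem_range] at hi hj
    have h4 := (ZMod.natCast_eq_natCast_iff' i j n).mp hij
    rwa [Nat.mod_eq_of_lt hi, Nat.mod_eq_of_lt hj] at h4
  · intro j _
    exact ⟨j.val, Finset.mem_range.mpr (ZMod.val_lt j), ZMod.natCast_zmod_val j⟩
  · intro i _
    rw [h2]

/-- norms give representations of the symbol algebra -/
theorem split_of_norm (z : L) : Split n ω a (Algebra.norm K z) := by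
  have hfin : FiniteDimensional K L := IsSplittingField.finiteDimensional L (X ^ n - C a)
  obtain ⟨α, σ, hα, hσ, hN⟩ := exists_gen hω H L
  have hω0 : ω ≠ 0 := hω.ne_zero (NeZero.ne n)
  refine split_of_end (kum_finrank hω H L) (LinearMap.mulLeft K α)
    (LinearMap.mulLeft K z * σ.toLinearMap) ?_ ?_ ?_
  · rw [LinearMap.pow_mulLeft, hα]
    ext v
    simp [Algebra.smul_def]
  · have h1 : ∀ (k : ℕ) (v : L), ((LinearMap.mulLeft K z * σ.toLinearMap) ^ k) v
        = (∏ i ∈ Finset.range k, (σ ^ i) z) * (σ ^ k) v := by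
      intro k
      induction k with
      | zero => intro v; simp
      | succ k ih =>
        intro v
        rw [pow_succ, Module.End.mul_apply, ih, Finset.prod_range_succ, pow_succ σ k,
          AlgEquiv.mul_apply]
        simp only [Module.End.mul_apply, LinearMap.mulLeft_apply, AlgEquiv.toLinearMap_apply,
          map_mul]
        ring
    have h2 : ∀ v : L, (σ ^ n) v = v := by
      have hcard : σ ^ n = 1 := by
        have hgal : IsGalois K L := kum_galois hω H L
        have h3 := pow_card_eq_one' (x := σ)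
        rwa [IsGalois.card_aut_eq_finrank, kum_finrank hω H L] at h3
      intro v
      rw [hcard]; rfl
    ext v
    rw [h1, h2, ← hN z]
    simp [Algebra.smul_def]
  · ext v
    simp only [Module.End.mul_apply, LinearMap.smul_apply, LinearMap.mulLeft_apply,
      AlgEquiv.toLinearMap_apply, map_mul, hσ]
    rw [smul_mul_assoc, mul_smul_comm]
    congr 1
    ring

/-- representations of the symbol algebra give norms -/
theorem norm_of_split (hn : n.Prime) {b : K} (h : Split n ω a b) (hb : b ≠ 0) :
    ∃ z : L, Algebra.norm K z = b := by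
  obtain ⟨X', Y', h1, h2, h3⟩ := h
  have hfin : FiniteDimensional K L := IsSplittingField.finiteDimensional L (X ^ n - C a)
  obtain ⟨α, σ, hα, hσ, hN⟩ := exists_gen hω H L
  -- the operators
  let V := Fin n → K
  let Xo : Module.End K V := Matrix.toLin' X'
  let Yo : Module.End K V := Matrix.toLin' Y'
  have hpow : ∀ (M : Matrix (Fin n) (Fin n) K) (k : ℕ),
      (Matrix.toLin' M) ^ k = Matrix.toLin' (M ^ k) := by
    intro M k
    induction k with
    | zero => rw [pow_zero, pow_zero, Matrix.toLin'_one]; rfl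
    | succ k ih => rw [pow_succ, ih, pow_succ, Matrix.toLin'_mul]; rfl
  have e1 : Xo ^ n = a • (1 : Module.End K V) := by
    rw [hpow, h1, map_smul, Matrix.toLin'_one]; rfl
  have e2 : Yo ^ n = b • (1 : Module.End K V) := by
    rw [hpow, h2, map_smul, Matrix.toLin'_one]; rfl
  have e3 : Yo * Xo = ω • (Xo * Yo) := by
    have h4 : Yo * Xo = Matrix.toLin' (Y' * X') := by rw [Matrix.toLin'_mul]; rfl
    have h5 : Xo * Yo = Matrix.toLin' (X' * Y') := by rw [Matrix.toLin'_mul]; rfl
    rw [h4, h3, map_smul, h5]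
  -- the action of `L`
  have hmin : minpoly K α = X ^ n - C a := by
    refine (minpoly.eq_of_irreducible_of_monic H ?_ (monic_X_pow_sub_C a (NeZero.ne n))).symm
    simp [hα]
  have hadj : IntermediateField.adjoin K {α} = ⊤ := by
    apply IntermediateField.eq_of_le_of_finrank_eq le_top
    rw [IntermediateField.adjoin.finrank (Algebra.IsIntegral.isIntegral α), hmin,
      natDegree_X_pow_sub_C, IntermediateField.finrank_top', kum_finrank hω H L]
  have hadj' : Algebra.adjoin K {α} = ⊤ := by
    rw [← IntermediateField.adjoin_simple_toSubalgebra_of_isAlgebraic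
      (IsAlgebraic.of_finite K α), hadj]
    rfl
  let pb : PowerBasis K L := PowerBasis.ofAdjoinEqTop' (Algebra.IsIntegral.isIntegral α) hadj'
  have hgen : pb.gen = α := PowerBasis.ofAdjoinEqTop'_gen _ _
  have h0 : aeval Xo (minpoly K pb.gen) = 0 := by
    rw [hgen, hmin]
    simp [e1, Algebra.algebraMap_eq_smul_one]
  obtain ⟨φ, hφα⟩ : ∃ φ : L →ₐ[K] Module.End K V, φ α = Xo :=
    ⟨pb.lift Xo h0, (congrArg _ hgen.symm).trans (pb.lift_gen Xo h0)⟩
  -- semilinearity
  have hsemi : ∀ z : L, Yo * φ z = φ (σ z) * Yo := by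
    intro z
    have hz : z ∈ Algebra.adjoin K {α} := by rw [hadj']; trivial
    induction hz using Algebra.adjoin_induction with
    | mem x hx =>
      rw [Set.mem_singleton_iff] at hx
      rw [hx, hσ, map_smul, hφα, e3, smul_mul_assoc]
    | algebraMap r =>
      rw [AlgEquiv.commutes, AlgHom.commutes]
      exact (Algebra.commutes r Yo).symm
    | add x y _ _ hx hy => rw [map_add, mul_add, hx, hy, map_add, map_add, add_mul]
    | mul x y _ _ hx hy =>
      rw [map_mul, ← mul_assoc, hx, mul_assoc, hy, map_mul, map_mul, ← mul_assoc]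
  let mod : Module L V := Module.compHom V φ.toRingHom
  have hsm : ∀ (z : L) (v : V), z • v = φ z v := fun z v => rfl
  have htow : IsScalarTower K L V := ⟨fun r z v => by
    rw [hsm, hsm, map_smul]; rfl⟩
  have hrank : finrank L V = 1 := by
    have h6 := Module.finrank_mul_finrank K L V
    rw [kum_finrank hω H L, Module.finrank_fin_fun] at h6
    exact Nat.eq_of_mul_eq_mul_left (NeZero.pos n) (by rw [h6, mul_one])
  obtain ⟨v, hv⟩ : ∃ v : V, v ≠ 0 := by
    have : Nontrivial V := by
      have : Nonempty (Fin n) := ⟨⟨0, NeZero.pos n⟩⟩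
      infer_instance
    exact exists_ne 0
  obtain ⟨w, hw⟩ := exists_smul_eq_of_finrank_eq_one hrank hv (Yo v)
  have hYk : ∀ k : ℕ, (Yo ^ k) v = (∏ i ∈ Finset.range k, (σ ^ i) w) • v := by
    intro k
    induction k with
    | zero => simp
    | succ k ih =>
      have h7 : (Yo ^ (k + 1)) v = (Yo ^ k) (Yo v) := by rw [pow_succ]; rfl
      have h8 : ∀ (j : ℕ) (z : L), (Yo ^ j) (z • v) = ((σ ^ j) z) • (Yo ^ j) v := by
        intro j
        induction j with
        | zero => intro z; rfl
        | succ j ihj =>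
          intro z
          rw [pow_succ', pow_succ', Module.End.mul_apply, ihj, Module.End.mul_apply,
            AlgEquiv.mul_apply, hsm, hsm]
          exact congrArg (fun f : Module.End K V => f ((Yo ^ j) v)) (hsemi _)
      rw [h7, ← hw, h8, ih, smul_smul, Finset.prod_range_succ, mul_comm]
  refine ⟨w, ?_⟩
  have h9 := hYk n
  rw [e2, ← hN w] at h9
  have h10 : (b : K) • v = (Algebra.norm K w) • v := by
    have h11 : (algebraMap K L (Algebra.norm K w)) • v = (Algebra.norm K w) • v := by
      rw [hsm, AlgHom.commutes]; rfl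
    rw [← h11, ← h9]; rfl
  have h12 : (b - Algebra.norm K w) • v = 0 := by rw [sub_smul, h10, sub_self]
  rcases smul_eq_zero.mp h12 with h13 | h13
  · exact (sub_eq_zero.mp h13).symm
  · exact absurd h13 hv

end Kummer

end Pool.Agent.Q6.Nip
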