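import Pool.Agent.Q6.Nip.Abs
import Pool.Agent.Q6.Nip.Norm
import Pool.Agent.W882.Nip3.Elem
import Pool.Agent.W882.Nip3.Defs

/-!
Norm groups of Kummer extensions, symmetry and definability.
-/

set_option autoImplicit false
set_option maxHeartbeats 400000

namespace Pool.Agent.Q6.Nip

open Polynomial Module

section NormGroup

variable {K : Type} [Field K]

/-- The norm group of `K(a^(1/ℓ))`: the nonzero elements of `K` which are norms from the splitting
field of `X ^ ℓ - a`. -/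
def normGroup (ℓ : ℕ) (a : Kˣ) : Subgroup Kˣ where
  carrier := {b | ∃ z : SplittingField (X ^ ℓ - C (a : K)), Algebra.norm K z = b}
  one_mem' := ⟨1, by simp⟩
  mul_mem' := by
    rintro b b' ⟨z, hz⟩ ⟨z', hz'⟩
    exact ⟨z * z', by rw [map_mul, hz, hz', Units.val_mul]⟩
  inv_mem' := by
    rintro b ⟨z, hz⟩
    have hz0 : z ≠ 0 := by
      rintro rfl
      rw [Algebra.norm_zero] at hz
      exact b.ne_zero hz.symm
    refine ⟨z⁻¹, ?_⟩
    rw [Units.val_inv_eq_inv_val]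
    apply eq_inv_of_mul_eq_one_left
    rw [← hz, ← map_mul, inv_mul_cancel₀ hz0, map_one]

theorem mem_normGroup {ℓ : ℕ} {a b : Kˣ} : b ∈ normGroup ℓ a ↔
    ∃ z : SplittingField (X ^ ℓ - C (a : K)), Algebra.norm K z = b := Iff.rfl

/-- the norm group of a power is everything -/
theorem normGroup_pow {ℓ : ℕ} [NeZero ℓ] {ω : K} (hω : IsPrimitiveRoot ω ℓ) {a : Kˣ} {c : K}
    (hc : c ^ ℓ = a) (b : Kˣ) : b ∈ normGroup ℓ a := by
  have h1 : (X ^ ℓ - C (a : K)).Splits := X_pow_sub_C_splits_of_isPrimitiveRoot hω hc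
  have h2 := (IsSplittingField.splits_iff (SplittingField (X ^ ℓ - C (a : K)))
    (X ^ ℓ - C (a : K))).mp h1
  have h3 : finrank K (SplittingField (X ^ ℓ - C (a : K))) = 1 :=
    Subalgebra.bot_eq_top_iff_finrank_eq_one.mp h2.symm
  exact ⟨algebraMap K _ b, by rw [Algebra.norm_algebraMap, h3, pow_one]⟩

theorem mem_iff_split {ℓ : ℕ} [hℓ : Fact ℓ.Prime] {ω : K} (hω : IsPrimitiveRoot ω ℓ) (a b : Kˣ) :
    b ∈ normGroup ℓ a ↔ Split ℓ ω (a : K) (b : K) := by
  have : NeZero ℓ := ⟨hℓ.out.ne_zero⟩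
  by_cases h : ∃ c : K, c ^ ℓ = a
  · obtain ⟨c, hc⟩ := h
    refine ⟨fun _ => ?_, fun _ => normGroup_pow hω hc b⟩
    rw [← hc]
    exact split_pow hℓ.out.pos hω.pow_eq_one c b
  · push Not at h
    have H : Irreducible (X ^ ℓ - C (a : K)) := X_pow_sub_C_irreducible_of_prime hℓ.out h
    constructor
    · rintro ⟨z, hz⟩
      rw [← hz]
      exact split_of_norm hω H _ z
    · intro hs
      exact norm_of_split hω H _ hℓ.out hs b.ne_zero

theorem normGroup_symm {ℓ : ℕ} [hℓ : Fact ℓ.Prime] {ω : K} (hω : IsPrimitiveRoot ω ℓ) {a b : Kˣ}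
    (h : b ∈ normGroup ℓ a) : a ∈ normGroup ℓ b := by
  rw [mem_iff_split hω] at h
  rw [mem_iff_split hω.inv]
  exact h.swap (hω.ne_zero hℓ.out.ne_zero)

/-- the orthogonality relation -/
def orth (ℓ : ℕ) [hℓ : Fact ℓ.Prime] {ω : K} (hω : IsPrimitiveRoot ω ℓ) : Orth Kˣ where
  perp := normGroup ℓ
  symm := fun _ _ h => normGroup_symm hω h

end NormGroup

section Formula

open FirstOrder FirstOrder.Language FirstOrder.Ring

/-- the variables -/
abbrev Var (ℓ : ℕ) : Type := (Fin 2 ⊕ (Fin 1 × Fin 1)) ⊕ (Bool × Fin ℓ × Fin ℓ)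

/-- a generic matrix -/
noncomputable def gm (ℓ : ℕ) (s : Bool) : Matrix (Fin ℓ) (Fin ℓ) (FreeCommRing (Var ℓ)) :=
  Matrix.of fun i j => FreeCommRing.of (Sum.inr (s, i, j))

/-- a free variable -/
noncomputable def fv (ℓ : ℕ) (x : Fin 2 ⊕ (Fin 1 × Fin 1)) : FreeCommRing (Var ℓ) :=
  FreeCommRing.of (Sum.inl x)

/-- the formula: the symbol algebra is split -/
noncomputable def fS (ℓ : ℕ) : FirstOrder.Language.ring.Formula (Fin 2 ⊕ (Fin 1 × Fin 1)) :=
  Formula.iExs (Bool × Fin ℓ × Fin ℓ) (Formula.iInf (fun ij : Fin ℓ × Fin ℓ =>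
    (Term.equal (termOfFreeCommRing ((gm ℓ true ^ ℓ) ij.1 ij.2))
      (termOfFreeCommRing ((fv ℓ (Sum.inr (0, 0)) •
        (1 : Matrix (Fin ℓ) (Fin ℓ) (FreeCommRing (Var ℓ)))) ij.1 ij.2))) ⊓
    ((Term.equal (termOfFreeCommRing ((gm ℓ false ^ ℓ) ij.1 ij.2))
      (termOfFreeCommRing ((fv ℓ (Sum.inl 0) •
        (1 : Matrix (Fin ℓ) (Fin ℓ) (FreeCommRing (Var ℓ)))) ij.1 ij.2))) ⊓
    (Term.equal (termOfFreeCommRing ((gm ℓ false * gm ℓ true) ij.1 ij.2))
      (termOfFreeCommRing ((fv ℓ (Sum.inl 1) •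
        (gm ℓ true * gm ℓ false)) ij.1 ij.2))))))

theorem realize_fS {K : Type} [Field K] [CompatibleRing K] (ℓ : ℕ) (v : Fin 2 → K)
    (u : Fin 1 × Fin 1 → K) :
    (fS ℓ).Realize (Sum.elim v u) ↔ Split ℓ (v 1) (u (0, 0)) (v 0) := by
  rw [fS, Formula.realize_iExs]
  have key : ∀ w : Bool × Fin ℓ × Fin ℓ → K,
      (Formula.iInf (fun ij : Fin ℓ × Fin ℓ =>
    (Term.equal (termOfFreeCommRing ((gm ℓ true ^ ℓ) ij.1 ij.2))
      (termOfFreeCommRing ((fv ℓ (Sum.inr (0, 0)) •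
        (1 : Matrix (Fin ℓ) (Fin ℓ) (FreeCommRing (Var ℓ)))) ij.1 ij.2))) ⊓
    ((Term.equal (termOfFreeCommRing ((gm ℓ false ^ ℓ) ij.1 ij.2))
      (termOfFreeCommRing ((fv ℓ (Sum.inl 0) •
        (1 : Matrix (Fin ℓ) (Fin ℓ) (FreeCommRing (Var ℓ)))) ij.1 ij.2))) ⊓
    (Term.equal (termOfFreeCommRing ((gm ℓ false * gm ℓ true) ij.1 ij.2))
      (termOfFreeCommRing ((fv ℓ (Sum.inl 1) •
        (gm ℓ true * gm ℓ false)) ij.1 ij.2)))))).Realize (Sum.elim (Sum.elim v u) w) ↔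
      ((Matrix.of fun i j => w (true, i, j)) ^ ℓ = u (0, 0) • (1 : Matrix (Fin ℓ) (Fin ℓ) K) ∧
        (Matrix.of fun i j => w (false, i, j)) ^ ℓ = v 0 • (1 : Matrix (Fin ℓ) (Fin ℓ) K) ∧
        (Matrix.of fun i j => w (false, i, j)) * (Matrix.of fun i j => w (true, i, j)) =
          v 1 • ((Matrix.of fun i j => w (true, i, j)) * (Matrix.of fun i j => w (false, i, j)))) := by
    intro w
    let E : FreeCommRing (Var ℓ) →+* K := FreeCommRing.lift (Sum.elim (Sum.elim v u) w)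
    have hE : ∀ (M : Matrix (Fin ℓ) (Fin ℓ) (FreeCommRing (Var ℓ))) (i j : Fin ℓ),
        E (M i j) = (E.mapMatrix M) i j := fun _ _ _ => rfl
    have hg : ∀ s, E.mapMatrix (gm ℓ s) = Matrix.of fun i j => w (s, i, j) := by
      intro s
      ext i j
      change FreeCommRing.lift (Sum.elim (Sum.elim v u) w) (FreeCommRing.of (Sum.inr (s, i, j))) = _
      rw [FreeCommRing.lift_of]
      rfl
    have hsm : ∀ (x : Fin 2 ⊕ (Fin 1 × Fin 1)) (M : Matrix (Fin ℓ) (Fin ℓ) (FreeCommRing (Var ℓ))),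
        E.mapMatrix (fv ℓ x • M) = (Sum.elim v u x) • E.mapMatrix M := by
      intro x M
      ext i j
      change E (fv ℓ x * M i j) = Sum.elim v u x * E (M i j)
      rw [map_mul]
      congr 1
      change FreeCommRing.lift (Sum.elim (Sum.elim v u) w) (FreeCommRing.of (Sum.inl x)) = _
      rw [FreeCommRing.lift_of]
      rfl
    rw [Formula.realize_iInf]
    simp only [Formula.realize_inf, Formula.realize_equal, realize_termOfFreeCommRing]
    change (∀ ij : Fin ℓ × Fin ℓ, E _ = E _ ∧ E _ = E _ ∧ E _ = E _) ↔ _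
    simp only [hE, map_pow, map_mul, hg, hsm, map_one, Sum.elim_inl, Sum.elim_inr]
    constructor
    · intro h
      refine ⟨?_, ?_, ?_⟩
      · ext i j; exact (h (i, j)).1
      · ext i j; exact (h (i, j)).2.1
      · ext i j; exact (h (i, j)).2.2
    · rintro ⟨h1, h2, h3⟩ ij
      rw [h1, h2, h3]
      exact ⟨rfl, rfl, rfl⟩
  constructor
  · rintro ⟨w, hw⟩
    obtain ⟨h1, h2, h3⟩ := (key w).mp hw
    exact ⟨_, _, h1, h2, h3⟩
  · rintro ⟨X, Y, h1, h2, h3⟩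
    refine ⟨fun t => if t.1 then X t.2.1 t.2.2 else Y t.2.1 t.2.2, (key _).mpr ?_⟩
    have e1 : (Matrix.of fun i j => (fun t : Bool × Fin ℓ × Fin ℓ =>
        if t.1 then X t.2.1 t.2.2 else Y t.2.1 t.2.2) (true, i, j)) = X := by
      ext i j; simp
    have e2 : (Matrix.of fun i j => (fun t : Bool × Fin ℓ × Fin ℓ =>
        if t.1 then X t.2.1 t.2.2 else Y t.2.1 t.2.2) (false, i, j)) = Y := by
      ext i j; simp
    rw [e1, e2]
    exact ⟨h1, h2, h3⟩

end Formula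

section Pattern

open FirstOrder FirstOrder.Language FirstOrder.Ring Pool.Agent.W882.Nip3

theorem patN_of_pat {K : Type} [Field K] [CompatibleRing K] {ℓ : ℕ} [hℓ : Fact ℓ.Prime] {ω : K}
    (hω : IsPrimitiveRoot ω ℓ) {m : ℕ} (h : (orth ℓ hω).Pat m) : PatN K (fS ℓ) m := by
  classical
  obtain ⟨a, b, hab⟩ := h
  have hab' : ∀ i j, b j ∈ normGroup ℓ (a i) ↔ i ≠ j := hab
  refine ⟨fun _ i _ => (a i : K), fun S => ?_⟩
  let P : Kˣ := ∏ j ∈ Finset.univ.filter (fun j : Fin m => (fun _ : Fin 1 => j) ∉ S), b j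
  refine ⟨![(P : K), ω], fun i => ?_⟩
  rw [realize_fS]
  have e1 : (![(P : K), ω] : Fin 2 → K) 1 = ω := rfl
  have e2 : (![(P : K), ω] : Fin 2 → K) 0 = P := rfl
  rw [e1, e2, ← mem_iff_split hω]
  have hi : i = fun _ : Fin 1 => i 0 := by
    funext t
    rw [Subsingleton.elim t 0]
  constructor
  · intro h1
    by_contra hiS
    have hmem : i 0 ∈ Finset.univ.filter (fun j : Fin m => (fun _ : Fin 1 => j) ∉ S) := by
      rw [Finset.mem_filter]
      exact ⟨Finset.mem_univ _, by rwa [← hi]⟩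
    have h2 : P = b (i 0) * ∏ j ∈ (Finset.univ.filter
        (fun j : Fin m => (fun _ : Fin 1 => j) ∉ S)).erase (i 0), b j :=
      (Finset.mul_prod_erase _ _ hmem).symm
    have h3 : ∏ j ∈ (Finset.univ.filter
        (fun j : Fin m => (fun _ : Fin 1 => j) ∉ S)).erase (i 0), b j ∈ normGroup ℓ (a (i 0)) :=
      Subgroup.prod_mem _ fun j hj => (hab' _ _).mpr (Finset.ne_of_mem_erase hj).symm
    rw [h2] at h1
    have h4 := (Subgroup.mul_mem_cancel_right _ h3).mp h1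
    exact (hab' _ _).mp h4 rfl
  · intro hiS
    refine Subgroup.prod_mem _ fun j hj => (hab' _ _).mpr ?_
    rw [Finset.mem_filter] at hj
    rintro rfl
    exact hj.2 (by rwa [← hi])

end Pattern

end Pool.Agent.Q6.Nip
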