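import Pool.Agent.Q6.Nip.Quat

/-!
Norm groups of Kummer extensions of NIP fields.
-/

set_option autoImplicit false
set_option maxHeartbeats 400000

namespace Pool.Agent.Q6.Nip

open Polynomial Module Quaternion Pool.Agent.W882.Nip3

/-- the restriction of an orthogonality relation to a subgroup -/
def Orth.sub {G : Type*} [CommGroup G] (R : Orth G) (H : Subgroup G) : Orth H where
  perp := fun a => (R.perp a).subgroupOf H
  symm := fun _ _ h => R.symm _ _ h

theorem Orth.sub_pat {G : Type*} [CommGroup G] {R : Orth G} {H : Subgroup G} {m : ℕ}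
    (h : (R.sub H).Pat m) : R.Pat m := by
  obtain ⟨a, b, h⟩ := h
  exact ⟨fun i => a i, fun i => b i, fun i j => h i j⟩

theorem Orth.sub_rad {G : Type*} [CommGroup G] {R : Orth G} {H : Subgroup G} :
    (R.sub H).rad = (⨅ b ∈ H, R.perp b).subgroupOf H := by
  ext a
  rw [Orth.mem_rad, Subgroup.mem_subgroupOf, Subgroup.mem_iInf]
  constructor
  · intro h b
    rw [Subgroup.mem_iInf]
    intro hb
    exact R.symm _ _ (h ⟨b, hb⟩)
  · intro h b
    have h1 := h b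
    rw [Subgroup.mem_iInf] at h1
    exact R.symm _ _ (h1 b.2)

theorem nip_one' {K : Type} [Field K] [FirstOrder.Ring.CompatibleRing K] (h : NIPField K) :
    NIPnField 1 K := by
  classical
  intro p q φ hφ
  obtain ⟨n, hn⟩ := h q p (φ.relabel (Sum.elim Sum.inr (fun jl => Sum.inl jl.2) :
    Fin p ⊕ (Fin 1 × Fin q) → Fin q ⊕ Fin p))
  obtain ⟨b, hb⟩ := hφ n
  choose a ha using hb
  obtain ⟨i, J, hiJ⟩ := hn (fun i => b 0 i) (fun J => a {s | s 0 ∈ J})
  apply hiJ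
  rw [FirstOrder.Language.Formula.realize_relabel]
  have h1 := ha {s : Fin 1 → Fin n | s 0 ∈ J} (fun _ => i)
  have h2 : (Sum.elim (b 0 i) (a {s | s 0 ∈ J})) ∘ (Sum.elim Sum.inr (fun jl => Sum.inl jl.2) :
      Fin p ⊕ (Fin 1 × Fin q) → Fin q ⊕ Fin p) =
      Sum.elim (a {s | s 0 ∈ J}) (fun jl : Fin 1 × Fin q => b jl.1 i jl.2) := by
    funext t
    rcases t with t | ⟨t, l⟩
    · rfl
    · have : t = 0 := Subsingleton.elim _ _
      subst this
      rfl
  rw [h2]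
  exact h1

/-- in an NIP field there are no large patterns, uniformly -/
theorem exists_no_pat {K : Type} [Field K] [FirstOrder.Ring.CompatibleRing K] (hK : NIPField K)
    (ℓ : ℕ) [Fact ℓ.Prime] : ∃ m : ℕ, ∀ (K' : Type) [Field K'] [FirstOrder.Ring.CompatibleRing K'],
      FirstOrder.Language.ring.ElementarilyEquivalent K K' →
      ∀ (ω : K') (hω : IsPrimitiveRoot ω ℓ), ¬ (orth ℓ hω).Pat (m + 1) := by
  obtain ⟨m, hm⟩ : ∃ m, ¬ PatN K (fS ℓ) m := by
    have := nip_one' hK 2 1 (fS ℓ)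
    by_contra hcon
    push Not at hcon
    exact this hcon
  refine ⟨m, fun K' _ _ hKK' ω hω hpat => ?_⟩
  rw [patN_congr hKK'] at hm
  exact hm (patN_of_pat hω (hpat.mono (Nat.le_succ m)))

section Cons

variable {K : Type} [Field K] {ℓ : ℕ} [hℓ : Fact ℓ.Prime] {ω : K} (hω : IsPrimitiveRoot ω ℓ)

include hω

theorem cons_family {m : ℕ} (hm : ¬ (orth ℓ hω).Pat (m + 1)) (S : Finset Kˣ) :
    ∃ T ⊆ S, T.card ≤ m ∧ (⨅ a ∈ T, normGroup ℓ a) = ⨅ a ∈ S, normGroup ℓ a := by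
  classical
  obtain ⟨T, hTS, hT, h⟩ := (orth ℓ hω).exists_subset m hm S
  refine ⟨T, hTS, hT, le_antisymm ?_ ?_⟩
  · intro x hx
    simp only [Subgroup.mem_iInf] at hx ⊢
    exact h x hx
  · intro x hx
    simp only [Subgroup.mem_iInf] at hx ⊢
    exact fun a ha => hx a (hTS ha)

theorem cons_index {m : ℕ} (hm : ¬ (orth ℓ hω).Pat (m + 1)) (H : Subgroup Kˣ)
    (hH : ∀ a ∈ H, (normGroup ℓ a).relIndex H ≠ 0) :
    (⨅ a ∈ H, normGroup ℓ a).relIndex H ≠ 0 := by
  have h1 : ((orth ℓ hω).sub H).rad.index ≠ 0 :=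
    ((orth ℓ hω).sub H).rad_index (fun a => hH a a.2) (m + 1) (fun h => hm (Orth.sub_pat h))
  rw [Orth.sub_rad] at h1
  exact h1

theorem cons_index_le {m : ℕ} (hm : ¬ (orth ℓ hω).Pat (m + 1)) (H : Subgroup Kˣ) (B : ℕ)
    (hH : ∀ a ∈ H, (normGroup ℓ a).relIndex H ≠ 0 ∧ (normGroup ℓ a).relIndex H ≤ B) :
    (⨅ a ∈ H, normGroup ℓ a).relIndex H ≤ B ^ m := by
  have h1 := (((orth ℓ hω).sub H).rad_index_le m B (fun h => hm (Orth.sub_pat h))
    (fun a => hH a a.2)).2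
  rw [Orth.sub_rad] at h1
  exact h1

/-- the elements whose norm group has finite index -/
theorem exists_fin : ∃ F : Subgroup Kˣ, ∀ a, a ∈ F ↔ (normGroup ℓ a).index ≠ 0 := by
  have h1 : (normGroup ℓ (1 : Kˣ)).index ≠ 0 := by
    have : normGroup ℓ (1 : Kˣ) = ⊤ := by
      ext x
      exact ⟨fun _ => trivial, fun _ => (orth ℓ hω).symm _ _ ((orth ℓ hω).perp x).one_mem⟩
    rw [this, Subgroup.index_top]
    exact one_ne_zero
  have h2 : ∀ a b : Kˣ, (normGroup ℓ a).index ≠ 0 → (normGroup ℓ b).index ≠ 0 →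
      (normGroup ℓ (a * b)).index ≠ 0 := by
    intro a b ha hb
    refine index_ne_zero_of_le ?_ (Subgroup.index_inf_ne_zero ha hb)
    rintro x ⟨hx, hx'⟩
    exact (orth ℓ hω).symm _ _ (((orth ℓ hω).perp x).mul_mem ((orth ℓ hω).symm _ _ hx)
      ((orth ℓ hω).symm _ _ hx'))
  have h3 : ∀ a : Kˣ, (normGroup ℓ a).index ≠ 0 → (normGroup ℓ a⁻¹).index ≠ 0 := by
    intro a ha
    refine index_ne_zero_of_le ?_ ha
    intro x hx
    exact (orth ℓ hω).symm _ _ (((orth ℓ hω).perp x).inv_mem ((orth ℓ hω).symm _ _ hx))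
  let F : Subgroup Kˣ :=
    { carrier := setOf fun a => (normGroup ℓ a).index ≠ 0
      one_mem' := h1
      mul_mem' := fun {a b} ha hb => h2 a b ha hb
      inv_mem' := fun {a} ha => h3 a ha }
  exact ⟨F, fun a => Iff.rfl⟩

end Cons

end Pool.Agent.Q6.Nip
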