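import Pool.Agent.Q6.Nip.Def

/-!
Quaternion algebras and norm groups.
-/

set_option autoImplicit false
set_option maxHeartbeats 400000

namespace Pool.Agent.Q6.Nip

open Polynomial Module Quaternion

section Quat

variable {K : Type} [Field K]

theorem quat_left {a b n x y : K} (hn : n = x ^ 2 - b * y ^ 2) (hn0 : n ≠ 0) :
    Nonempty (ℍ[K,a * n,b] ≃ₐ[K] ℍ[K,a,b]) := by
  let q : QuaternionAlgebra.Basis ℍ[K,a,b] (a * n) 0 b :=
    { i := ⟨0, x, 0, y⟩
      j := ⟨0, 0, 1, 0⟩
      k := ⟨0, b * y, 0, x⟩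
      i_mul_i := by
        rw [hn]
        ext <;> simp <;> ring
      j_mul_j := by ext <;> simp
      i_mul_j := by ext <;> simp <;> ring
      j_mul_i := by ext <;> simp <;> ring }
  have hinj : Function.Injective q.liftHom := by
    rw [injective_iff_map_eq_zero]
    intro u hu
    have h1 := congrArg QuaternionAlgebra.re hu
    have h2 := congrArg QuaternionAlgebra.imI hu
    have h3 := congrArg QuaternionAlgebra.imJ hu
    have h4 := congrArg QuaternionAlgebra.imK hu
    simp [QuaternionAlgebra.Basis.lift, q] at h1 h2 h3 h4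
    have h5 : n * u.imI = 0 := by linear_combination x * h2 - b * y * h4 + u.imI * hn
    have h6 : n * u.imK = 0 := by linear_combination x * h4 - y * h2 + u.imK * hn
    ext
    · simpa using h1
    · simpa using (mul_eq_zero.mp h5).resolve_left hn0
    · simpa using h3
    · simpa using (mul_eq_zero.mp h6).resolve_left hn0
  have hsurj : Function.Surjective q.liftHom :=
    (LinearMap.injective_iff_surjective_of_finrank_eq_finrank
      (f := q.liftHom.toLinearMap) (by
        rw [QuaternionAlgebra.finrank_eq_four, QuaternionAlgebra.finrank_eq_four])).mp hinj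
  exact ⟨AlgEquiv.ofBijective q.liftHom ⟨hinj, hsurj⟩⟩

theorem quat_right {a b n x y : K} (hn : n = x ^ 2 - a * y ^ 2) (hn0 : n ≠ 0) :
    Nonempty (ℍ[K,a,b * n] ≃ₐ[K] ℍ[K,a,b]) := by
  let q : QuaternionAlgebra.Basis ℍ[K,a,b] a 0 (b * n) :=
    { i := ⟨0, 1, 0, 0⟩
      j := ⟨0, 0, x, y⟩
      k := ⟨0, 0, a * y, x⟩
      i_mul_i := by ext <;> simp
      j_mul_j := by
        rw [hn]
        ext <;> simp <;> ring
      i_mul_j := by ext <;> simp <;> ring
      j_mul_i := by ext <;> simp <;> ring }
  have hinj : Function.Injective q.liftHom := by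
    rw [injective_iff_map_eq_zero]
    intro u hu
    have h1 := congrArg QuaternionAlgebra.re hu
    have h2 := congrArg QuaternionAlgebra.imI hu
    have h3 := congrArg QuaternionAlgebra.imJ hu
    have h4 := congrArg QuaternionAlgebra.imK hu
    simp [QuaternionAlgebra.Basis.lift, q] at h1 h2 h3 h4
    have h5 : n * u.imJ = 0 := by linear_combination x * h3 - a * y * h4 + u.imJ * hn
    have h6 : n * u.imK = 0 := by linear_combination x * h4 - y * h3 + u.imK * hn
    ext
    · simpa using h1
    · simpa using h2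
    · simpa using (mul_eq_zero.mp h5).resolve_left hn0
    · simpa using (mul_eq_zero.mp h6).resolve_left hn0
  have hsurj : Function.Surjective q.liftHom :=
    (LinearMap.injective_iff_surjective_of_finrank_eq_finrank
      (f := q.liftHom.toLinearMap) (by
        rw [QuaternionAlgebra.finrank_eq_four, QuaternionAlgebra.finrank_eq_four])).mp hinj
  exact ⟨AlgEquiv.ofBijective q.liftHom ⟨hinj, hsurj⟩⟩

/-- norms from quadratic extensions -/
theorem norm_quad (h2 : (2 : K) ≠ 0) {b n : Kˣ} (h : n ∈ normGroup 2 b) :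
    ∃ x y : K, (n : K) = x ^ 2 - b * y ^ 2 := by
  have hω : IsPrimitiveRoot (-1 : K) 2 := by
    refine IsPrimitiveRoot.mk_of_lt _ (by norm_num) (by norm_num) (fun l hl hl' h => ?_)
    have : l = 1 := by omega
    rw [this, pow_one] at h
    apply h2
    linear_combination -h
  by_cases hb : ∃ c : K, c ^ 2 = b
  · obtain ⟨c, hc⟩ := hb
    have hc0 : c ≠ 0 := by
      rintro rfl
      rw [zero_pow two_ne_zero] at hc
      exact b.ne_zero hc.symm
    refine ⟨((n : K) + 1) / 2, ((n : K) - 1) / (2 * c), ?_⟩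
    rw [← hc]
    field_simp
    ring
  · push Not at hb
    have : NeZero 2 := ⟨two_ne_zero⟩
    have H : Irreducible (X ^ 2 - C (b : K)) := X_pow_sub_C_irreducible_of_prime Nat.prime_two hb
    obtain ⟨z, hz⟩ := h
    have hfin : FiniteDimensional K (SplittingField (X ^ 2 - C (b : K))) := inferInstance
    obtain ⟨α, σ, hα, hσ, hN⟩ := exists_gen hω H (SplittingField (X ^ 2 - C (b : K)))
    -- `1, α` span
    have hspan : ∃ x y : K, z = algebraMap K _ x + y • α := by
      have hli : LinearIndependent K ![(1 : SplittingField (X ^ 2 - C (b : K))), α] := by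
        rw [LinearIndependent.pair_iff]
        intro s t hst
        by_cases ht : t = 0
        · rw [ht, zero_smul, add_zero] at hst
          exact ⟨(smul_eq_zero.mp hst).resolve_right one_ne_zero, ht⟩
        · exfalso
          apply hb (-s / t)
          apply (algebraMap K (SplittingField (X ^ 2 - C (b : K)))).injective
          have h3 : α = algebraMap K _ (-s / t) := by
            have h4 : t • α = algebraMap K (SplittingField (X ^ 2 - C (b : K))) (-s) := by
              rw [map_neg, Algebra.algebraMap_eq_smul_one]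
              exact eq_neg_of_add_eq_zero_right hst
            have h5 : α = t⁻¹ • (t • α) := by rw [smul_smul, inv_mul_cancel₀ ht, one_smul]
            rw [h5, h4, Algebra.smul_def, ← map_mul]
            congr 1
            field_simp
          rw [map_pow, ← h3, hα]
      have hr : finrank K (SplittingField (X ^ 2 - C (b : K))) = 2 := kum_finrank hω H _
      have htop := hli.span_eq_top_of_card_eq_finrank' (by rw [Fintype.card_fin, hr])
      have hz : z ∈ Submodule.span K (Set.range ![(1 : SplittingField (X ^ 2 - C (b : K))), α]) := by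
        rw [htop]; trivial
      rw [Matrix.range_cons, Matrix.range_cons, Matrix.range_empty, Set.union_empty,
        Set.singleton_union, Submodule.mem_span_pair] at hz
      obtain ⟨s, t, hst⟩ := hz
      exact ⟨s, t, by rw [← hst, Algebra.algebraMap_eq_smul_one]⟩
    obtain ⟨x, y, hxy⟩ := hspan
    refine ⟨x, y, ?_⟩
    apply (algebraMap K (SplittingField (X ^ 2 - C (b : K)))).injective
    rw [← hz, hN z, Finset.prod_range_succ, Finset.prod_range_one, pow_zero, pow_one,
      AlgEquiv.one_apply, hxy, map_add, AlgEquiv.commutes, map_smul, hσ, map_sub, map_pow,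
      map_mul, map_pow, ← hα, Algebra.smul_def, Algebra.smul_def (-1 : K), Algebra.smul_def,
      map_neg, map_one]
    ring

/-- if the common norms have finite index then there are finitely many quaternion algebras -/
theorem finite_quat (h2 : (2 : K) ≠ 0) (hR : (⨅ a : Kˣ, normGroup 2 a).index ≠ 0) :
    ∃ S : Finset (Kˣ × Kˣ), ∀ a b : Kˣ, ∃ p ∈ S,
      Nonempty (ℍ[K,(a : K),(b : K)] ≃ₐ[K] ℍ[K,(p.1 : K),(p.2 : K)]) := by
  classical
  set R : Subgroup Kˣ := ⨅ a : Kˣ, normGroup 2 a with hRd
  have : R.FiniteIndex := ⟨hR⟩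
  have hfin : Finite (Kˣ ⧸ R) := inferInstance
  have := Fintype.ofFinite (Kˣ ⧸ R)
  let rep : Kˣ ⧸ R → Kˣ := Quotient.out
  let T : Finset Kˣ := Finset.univ.image rep
  refine ⟨T ×ˢ T, fun a b => ⟨(rep a, rep b), ?_, ?_⟩⟩
  · exact Finset.mem_product.mpr ⟨Finset.mem_image_of_mem _ (Finset.mem_univ _),
      Finset.mem_image_of_mem _ (Finset.mem_univ _)⟩
  · have hrep : ∀ c : Kˣ, ∃ n ∈ R, c = rep c * n := by
      intro c
      refine ⟨(rep (c : Kˣ ⧸ R))⁻¹ * c, ?_, by rw [mul_inv_cancel_left]⟩
      rw [← QuotientGroup.eq]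
      exact Quotient.out_eq _
    obtain ⟨n, hn, hna⟩ := hrep a
    obtain ⟨n', hn', hnb⟩ := hrep b
    rw [hRd, Subgroup.mem_iInf] at hn hn'
    obtain ⟨x, y, hxy⟩ := norm_quad h2 (hn b)
    obtain ⟨x', y', hxy'⟩ := norm_quad h2 (hn' (rep a))
    obtain ⟨e1⟩ := quat_left (a := (rep (a : Kˣ ⧸ R) : K)) hxy n.ne_zero
    obtain ⟨e2⟩ := quat_right (b := (rep (b : Kˣ ⧸ R) : K)) hxy' n'.ne_zero
    have ha : (a : K) = (rep (a : Kˣ ⧸ R) : K) * n := by
      rw [← Units.val_mul]; exact congrArg Units.val hna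
    have hb : (b : K) = (rep (b : Kˣ ⧸ R) : K) * n' := by
      rw [← Units.val_mul]; exact congrArg Units.val hnb
    have e3 : Nonempty (ℍ[K,(a : K),(b : K)] ≃ₐ[K] ℍ[K,(rep (a : Kˣ ⧸ R) : K),(b : K)]) := by
      rw [ha]; exact ⟨e1⟩
    have e4 : Nonempty (ℍ[K,(rep (a : Kˣ ⧸ R) : K),(b : K)] ≃ₐ[K]
        ℍ[K,(rep (a : Kˣ ⧸ R) : K),(rep (b : Kˣ ⧸ R) : K)]) := by
      rw [hb]; exact ⟨e2⟩
    obtain ⟨e3⟩ := e3
    obtain ⟨e4⟩ := e4
    exact ⟨e3.trans e4⟩

end Quat

end Pool.Agent.Q6.Nip
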